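import Pool.Agent.H59.L.S8.W558.S.Stms

set_option autoImplicit false
set_option linter.unusedVariables false
set_option linter.unusedSimpArgs false
set_option linter.unusedSectionVars false

universe u v

open Polynomial

namespace Pool.Agent.W466.RS.Iso

open Pool.Agent.W558

section refine

variable {k K : Type u} [Field k] [Field K] [Algebra k K] {R0 R : Subalgebra k K}
    {T I : Type} (M : LM R0 R T I) {J : Type} (h : T → J → K)

/-- Refinement of the charts by localizations. -/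
theorem exists_refine2 [Finite T] [Finite I] [Finite J] (hmem : ∀ t b, h t b ∈ M.A t)
    (hne : ∀ t b, h t b ≠ 0)
    (hcov : ∀ (V : ValuationSubring K), (∀ a ∈ R0, a ∈ V) →
      ∃ t b, (∀ f ∈ M.A t, f ∈ V) ∧ (h t b)⁻¹ ∈ V) :
    ∃ M' : LM R0 R (T × J) I,
    M'.A = rA M h ∧ M'.x = (fun p => M.x p.1) ∧
      ∃ N : ℕ, ∀ p : T × J, M'.H p = M.H p.1 ^ N * h p.1 p.2 := by
  obtain ⟨N1, hN1⟩ := M.exists_N
  obtain ⟨N2, hN2⟩ := M.exists_N' h hmem
  let N0 := N1 + N2
  let N : ℕ := N0 + 1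
  have hH0 : ∀ p : T × J, rH M h N p ≠ 0 := fun p =>
    mul_ne_zero (pow_ne_zero _ (M.H0 _)) (hne _ _)
  have hinv := inv_mem_rA M h
  have hq : ∀ (p p' : T × J) (n : ℕ), N0 ≤ n →
      (M.H p'.1 / M.H p.1) ^ n * (h p'.1 p'.2 / h p.1 p.2) ∈ rA M h p := by
    intro p p' n hn
    rw [div_eq_mul_inv (h p'.1 p'.2), ← mul_assoc]
    exact (rA M h p).mul_mem (le_rA M h p ((hN2 n (by omega)).1 _ _ _)) (hinv p)
  have hρ : ∀ p p' : T × J, rH M h N p' / rH M h N p =
      (M.H p'.1 / M.H p.1) * ((M.H p'.1 / M.H p.1) ^ N0 * (h p'.1 p'.2 / h p.1 p.2)) := by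
    intro p p'
    rw [rH, rH, show N = N0 + 1 from rfl, pow_succ, pow_succ]
    have h1 := M.H0 p.1
    have h2 := hne p.1 p.2
    rw [div_pow]
    field_simp
  have hρmem : ∀ p p' : T × J, rH M h N p' / rH M h N p ∈ rA M h p := by
    intro p p'
    rw [hρ]
    exact (rA M h p).mul_mem (le_rA M h p (M.rt _ _)) (hq p p' _ le_rfl)
  have hgl : ∀ p p' : T × J, ∀ f ∈ rA M h p', ∃ n : ℕ,
      (rH M h N p' / rH M h N p) ^ n * f ∈ rA M h p := by
    intro p p' f hf
    refine adj_induction (M.A p'.1) (h p'.1 p'.2)⁻¹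
      (p := fun f => ∃ n : ℕ, (rH M h N p' / rH M h N p) ^ n * f ∈ rA M h p) ?_ ?_ ?_ f hf
    · intro a ha
      obtain ⟨n, hn⟩ := M.gl p.1 p'.1 a ha
      refine ⟨n, ?_⟩
      rw [hρ, mul_pow, mul_right_comm]
      exact (rA M h p).mul_mem (le_rA M h p hn) ((rA M h p).pow_mem (hq p p' _ le_rfl) n)
    · rintro a b ⟨n, hn⟩ ⟨m, hm⟩
      refine ⟨n + m, ?_⟩
      have h1 : (rH M h N p' / rH M h N p) ^ (n + m) * (a + b) =
          (rH M h N p' / rH M h N p) ^ m * ((rH M h N p' / rH M h N p) ^ n * a) +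
          (rH M h N p' / rH M h N p) ^ n * ((rH M h N p' / rH M h N p) ^ m * b) := by
        ring
      rw [h1]
      exact (rA M h p).add_mem
        ((rA M h p).mul_mem ((rA M h p).pow_mem (hρmem p p') m) hn)
        ((rA M h p).mul_mem ((rA M h p).pow_mem (hρmem p p') n) hm)
    · rintro a ⟨n, hn⟩
      refine ⟨n + 1, ?_⟩
      have h1 : (rH M h N p' / rH M h N p) ^ (n + 1) * (a * (h p'.1 p'.2)⁻¹) =
          (rH M h N p' / rH M h N p) ^ n * a *
          (rH M h N p' / rH M h N p * (h p'.1 p'.2)⁻¹) := by ring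
      rw [h1]
      refine (rA M h p).mul_mem hn ?_
      have h2 : rH M h N p' / rH M h N p * (h p'.1 p'.2)⁻¹ =
          (M.H p'.1 / M.H p.1) ^ N * (h p.1 p.2)⁻¹ := by
        rw [rH, rH]
        have h1 := M.H0 p.1
        have h2 := hne p.1 p.2
        have h4 := hne p'.1 p'.2
        rw [div_pow]
        field_simp
      rw [h2]
      exact (rA M h p).mul_mem ((rA M h p).pow_mem (le_rA M h p (M.rt _ _)) _) (hinv p)
  have hR1 : ∀ p : T × J, ∀ n, N0 ≤ n → M.H p.1 ^ n * h p.1 p.2 ∈ R :=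
    fun p n hn => (hN2 n (by omega)).2 _ _
  have hHR : ∀ p : T × J, rH M h N p ∈ R := fun p => hR1 p N (by omega)
  refine ⟨{ A := rA M h, H := rH M h N, x := fun p => M.x p.1,
            sm := fun p => ?_,
            base := fun p => (M.base p.1).trans (le_rA M h p), H0 := hH0, HR := hHR,
            rt := hρmem, gl := hgl, dn := ?_, cv := ?_,
            xA := fun p i => le_rA M h p (M.xA p.1 i),
            x0 := fun p => M.x0 p.1, gi := ?_, snc := ?_ }, rfl, rfl, N, fun p => rfl⟩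
  · have := M.sm p.1
    exact smooth_adj_inv (hmem p.1 p.2) (hne p.1 p.2)
  · intro p f hf
    refine adj_induction (M.A p.1) (h p.1 p.2)⁻¹
      (p := fun f => ∃ n : ℕ, rH M h N p ^ n * f ∈ R) ?_ ?_ ?_ f hf
    · intro a ha
      obtain ⟨n, hn⟩ := M.dn p.1 a ha
      refine ⟨n, ?_⟩
      have h1 : rH M h N p ^ n * a = M.H p.1 ^ n * a *
          (M.H p.1 ^ N0 * h p.1 p.2) ^ n := by
        rw [rH, show N = N0 + 1 from rfl, pow_succ]
        ring
      rw [h1]
      exact R.mul_mem hn (R.pow_mem (hR1 p _ le_rfl) n)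
    · rintro a b ⟨n, hn⟩ ⟨m, hm⟩
      refine ⟨n + m, ?_⟩
      have h1 : rH M h N p ^ (n + m) * (a + b) =
          rH M h N p ^ m * (rH M h N p ^ n * a) +
          rH M h N p ^ n * (rH M h N p ^ m * b) := by ring
      rw [h1]
      exact R.add_mem (R.mul_mem (R.pow_mem (hHR p) m) hn) (R.mul_mem (R.pow_mem (hHR p) n) hm)
    · rintro a ⟨n, hn⟩
      refine ⟨n + 1, ?_⟩
      have h1 : rH M h N p ^ (n + 1) * (a * (h p.1 p.2)⁻¹) =
          rH M h N p ^ n * a * M.H p.1 ^ N := by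
        have h2 : rH M h N p * (h p.1 p.2)⁻¹ = M.H p.1 ^ N := by
          rw [rH]
          have := hne p.1 p.2
          field_simp
        rw [← h2]; ring
      rw [h1]
      exact R.mul_mem hn (R.pow_mem (M.HR _) _)
  · intro V hV
    obtain ⟨t, b, ht, hb⟩ := hcov V hV
    exact ⟨(t, b), adj_induction (M.A t) (h t b)⁻¹ ht (fun a b ha hb => V.add_mem _ _ ha hb)
        (fun a ha => V.mul_mem _ _ ha hb)⟩
  · intro p p' i
    refine ⟨N1, ?_⟩
    rw [hρ, mul_pow, mul_right_comm]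
    exact (rA M h p).mul_mem (le_rA M h p ((hN1 N1 le_rfl).1 _ _ _))
      ((rA M h p).pow_mem (hq p p' _ le_rfl) N1)
  · intro p
    exact (M.snc p.1).loc (M.xA p.1) (hmem p.1 p.2) (hne p.1 p.2)

end refine

section loc

variable {k E : Type u} [Field k] [Field E] [Algebra k E] {T I J : Type} 

/-- A localization is a refinement. -/
theorem refn_of {M : LM (⊥ : Subalgebra k E) ⊤ T I} {h : T → J → E}
    (hmem : ∀ t b, h t b ∈ M.A t) (hne : ∀ t b, h t b ≠ 0)
    {M' : LM (⊥ : Subalgebra k E) ⊤ (T × J) I} (hA : M'.A = rA M h)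
    (hx : M'.x = fun p => M.x p.1) : Refn M M' Prod.fst where
  le := fun t' => by rw [hA]; exact le_rA M h t'
  x := fun t' i => by rw [hx]
  pt := fun t' O hO => by
    rw [hA] at hO
    refine hO.down (le_rA M h t') (hmem t'.1 t'.2) (hne t'.1 t'.2)
      (hO.le (inv_mem_rA M h t')) ?_
    intro b hb
    exact (mem_adj_inv (hmem t'.1 t'.2) (hne t'.1 t'.2)).1 hb
  dv := fun t' W hW => by
    rw [hA] at hW
    refine hW.down (le_rA M h t') (hmem t'.1 t'.2) (hne t'.1 t'.2)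
      (hW.le (inv_mem_rA M h t')) ?_
    intro b hb
    exact (mem_adj_inv (hmem t'.1 t'.2) (hne t'.1 t'.2)).1 hb
  irr := fun W hW => by
    rintro ⟨t, b⟩ i
    rw [hA, hx]
    have hle := le_rA M h (t, b)
    have hinv : (h t b)⁻¹ ∈ rA M h (t, b) := inv_mem_rA M h (t, b)
    rcases hW t i with h1 | ⟨h1, h2, h3⟩
    · exact Or.inl (hle h1)
    · by_cases h4 : NU (W i) (h t b)
      · left
        obtain ⟨c, hc, h5⟩ := h3 _ (hmem t b) h4
        have h6 : (M.x t i)⁻¹ = c * (h t b)⁻¹ := by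
          have h7 := M.x0 t i
          have h8 : c ≠ 0 := by
            rintro rfl
            exact hne t b (by rw [h5, mul_zero])
          rw [h5]
          field_simp
        show (M.x t i)⁻¹ ∈ _
        rw [h6]
        exact (rA M h (t, b)).mul_mem (hle hc) hinv
      · right
        have h5 := (not_NU_iff (h1.le (hmem t b))).1 h4
        have h6 : rA M h (t, b) ≤ W i := adj_le h1.le h5.2
        refine ⟨h1.up hle h6, h2, ?_⟩
        intro a ha hna
        obtain ⟨n, hn⟩ := (mem_adj_inv (hmem t b) (hne t b)).1 ha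
        obtain ⟨c, hc, h7⟩ := h3 _ hn (hna.mul_right ((W i).pow_mem (h1.le (hmem t b)) n))
        refine ⟨c * (h t b)⁻¹ ^ n, (rA M h (t, b)).mul_mem (hle hc)
          ((rA M h (t, b)).pow_mem hinv n), ?_⟩
        show a = M.x t i * (c * (h t b)⁻¹ ^ n)
        rw [← mul_assoc, ← h7, mul_assoc, ← mul_pow, mul_inv_cancel₀ (hne t b), one_pow, mul_one]

/-- The data on a chart containing the point. -/
structure GD (A O : Subalgebra k E) (x : I → E) (u v g : E) : Prop where
  uA : u ∈ A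
  vA : v ∈ A
  gA : g ∈ A
  g0 : g ≠ 0
  gO : g⁻¹ ∈ O
  par : Par O u v
  coord : Coord (adj A g⁻¹) u v
  gen : ∀ x ∈ adj A g⁻¹, NU O x → ∃ α ∈ adj A g⁻¹, ∃ β ∈ adj A g⁻¹, x = α * u + β * v
  bd : ∀ i, NU O (x i) ∨ (x i)⁻¹ ∈ adj A g⁻¹

theorem coord_loc {A : Subalgebra k E} {u v : E} (huA : u ∈ A) (hvA : v ∈ A)
    (h : Coord A u v) {g : E} (hg : g ∈ A) (hg0 : g ≠ 0) : Coord (adj A g⁻¹) u v := by
  intro hu hv κ _ _ φ
  let φ0 : A →ₐ[k] κ := φ.comp (Subalgebra.inclusion (le_adj A g⁻¹))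
  have hφ0 : ∀ a : A, φ ⟨a, le_adj A _ a.2⟩ = φ0 a := fun a => rfl
  obtain ⟨D1, D2, h1, h2, h3, h4⟩ := h huA hvA κ φ0
  obtain ⟨E1, hE1⟩ := TV.ext_loc hg hg0 φ φ0 hφ0 D1
  obtain ⟨E2, hE2⟩ := TV.ext_loc hg hg0 φ φ0 hφ0 D2
  exact ⟨E1, E2, (hE1 _ _ _).trans h1, (hE1 _ _ _).trans h2, (hE2 _ _ _).trans h3,
    (hE2 _ _ _).trans h4⟩

theorem adj_adj_inv {A : Subalgebra k E} {g f : E} (hg : g ∈ A) (hg0 : g ≠ 0) (hf : f ∈ A)
    (hf0 : f ≠ 0) : adj (adj A g⁻¹) f⁻¹ = adj A (g * f)⁻¹ := by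
  apply le_antisymm
  · refine adj_le (adj_le (le_adj _ _) ?_) ?_
    · have : g⁻¹ = (g * f)⁻¹ * f := by field_simp
      rw [this]
      exact (adj A (g * f)⁻¹).mul_mem (self_mem_adj _ _) (le_adj _ _ hf)
    · have : f⁻¹ = (g * f)⁻¹ * g := by field_simp
      rw [this]
      exact (adj A (g * f)⁻¹).mul_mem (self_mem_adj _ _) (le_adj _ _ hg)
  · refine adj_le ((le_adj _ _).trans (le_adj _ _)) ?_
    rw [mul_inv]
    exact (adj (adj A g⁻¹) f⁻¹).mul_mem (le_adj _ _ (self_mem_adj _ _)) (self_mem_adj _ _)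

theorem exists_GD (hpar : S_par.{u}) [PerfectField k] (htr : Algebra.trdeg k E = 2)
    {A O : Subalgebra k E} (hA : Sf A) (hO : IsPt A O) [Finite I] (x : I → E)
    (hx : ∀ i, x i ∈ A) (hx0 : ∀ i, x i ≠ 0) : ∃ u v g, GD A O x u v g := by
  classical
  have : Fintype I := Fintype.ofFinite I
  obtain ⟨u, v, g, hu, hv, hg, hg0, hgO, hP, hC, hgen⟩ := hpar k E htr A O hA hO
  let f : E := ∏ i ∈ Finset.univ.filter fun i => ¬ NU O (x i), x i
  have hf : f ∈ A := A.prod_mem fun i _ => hx i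
  have hf0 : f ≠ 0 := Finset.prod_ne_zero_iff.2 fun i _ => hx0 i
  have hfO : f⁻¹ ∈ O := by
    rw [← Finset.prod_inv_distrib]
    refine O.prod_mem fun i hi => ?_
    exact ((not_NU_iff (hO.le (hx i))).1 (Finset.mem_filter.1 hi).2).2
  have heq := adj_adj_inv hg hg0 hf hf0
  refine ⟨u, v, g * f, hu, hv, A.mul_mem hg hf, mul_ne_zero hg0 hf0, ?_, hP, ?_, ?_, ?_⟩
  · rw [mul_inv]; exact O.mul_mem hgO hfO
  · rw [← heq]
    exact coord_loc (le_adj _ _ hu) (le_adj _ _ hv) hC (le_adj _ _ hf) hf0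
  · intro y hy hny
    rw [← heq] at hy
    obtain ⟨n, hn⟩ := (mem_adj_inv (le_adj A g⁻¹ hf) hf0).1 hy
    obtain ⟨α, hα, β, hβ, h1⟩ := hgen _ hn (hny.mul_right (O.pow_mem (hO.le hf) n))
    rw [← heq]
    have hle : adj A g⁻¹ ≤ adj (adj A g⁻¹) f⁻¹ := le_adj _ _
    have hfi := (adj (adj A g⁻¹) f⁻¹).pow_mem (self_mem_adj (adj A g⁻¹) f⁻¹) n
    refine ⟨α * f⁻¹ ^ n, (adj (adj A g⁻¹) f⁻¹).mul_mem (hle hα) hfi, β * f⁻¹ ^ n,
      (adj (adj A g⁻¹) f⁻¹).mul_mem (hle hβ) hfi, ?_⟩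
    have h2 : y = y * f ^ n * f⁻¹ ^ n := by
      rw [mul_assoc, ← mul_pow, mul_inv_cancel₀ hf0, one_pow, mul_one]
    rw [h2, h1]
    ring
  · intro i
    by_cases hi : NU O (x i)
    · exact Or.inl hi
    · right
      have h1 : f = x i * ∏ j ∈ (Finset.univ.filter fun i => ¬ NU O (x i)).erase i, x j :=
        (Finset.mul_prod_erase (Finset.univ.filter fun i => ¬ NU O (x i)) x
          (Finset.mem_filter.2 ⟨Finset.mem_univ i, hi⟩)).symm
      have h2 : ∏ j ∈ (Finset.univ.filter fun i => ¬ NU O (x i)).erase i, x j ∈ A :=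
        A.prod_mem fun j _ => hx j
      set q := ∏ j ∈ (Finset.univ.filter fun i => ¬ NU O (x i)).erase i, x j
      have h3 : (x i)⁻¹ = g * q * (g * f)⁻¹ := by
        have h4 := hx0 i
        have h5 : q ≠ 0 := by
          rintro h6
          exact hf0 (by rw [h1, h6, mul_zero])
        rw [h1]
        field_simp
      rw [h3]
      exact (adj A (g * f)⁻¹).mul_mem (le_adj _ _ (A.mul_mem hg h2)) (self_mem_adj _ _)

/-- A function vanishing at the point and not where the other function vanishes. -/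
theorem exists_g' {A O : Subalgebra k E} {x : I → E} {u v g : E} (hO : IsPt A O)
    (h : GD A O x u v g) : ∃ g' ∈ A, g' ≠ 0 ∧ NU O g' ∧
      ∀ V : ValuationSubring E, (∀ f ∈ A, f ∈ V) → g'⁻¹ ∈ V ∨ g⁻¹ ∈ V := by
  obtain ⟨b, hb, h1⟩ := hO.exists_inv h.gA (not_NU_of_inv h.g0 h.gO)
  by_cases h0 : g * b - 1 = 0
  · refine ⟨u, h.uA, h.par.u0, h.par.pu, fun V hV => Or.inr ?_⟩
    have : g⁻¹ = b := by
      have := h.g0
      field_simp
      linear_combination -h0
    rw [this]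
    exact hV b hb
  · refine ⟨g * b - 1, A.sub_mem (A.mul_mem h.gA hb) A.one_mem, h0, h1, fun V hV => ?_⟩
    by_cases h2 : (g * b - 1)⁻¹ ∈ V
    · exact Or.inl h2
    · right
      have h3 : (g * b - 1) ∈ V := hV _ (A.sub_mem (A.mul_mem h.gA hb) A.one_mem)
      by_contra h4
      -- `g` and `g b - 1` are nonunits
      have h5 : g ∈ V := hV _ h.gA
      have h6 : V.valuation g < 1 := by
        rw [lt_iff_le_not_ge]
        refine ⟨(V.valuation_le_one_iff g).2 h5, fun h7 => h4 ?_⟩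
        rw [← V.valuation_le_one_iff, map_inv₀]
        exact inv_le_one_of_one_le₀ h7
      have h7 : V.valuation (g * b - 1) < 1 := by
        rw [lt_iff_le_not_ge]
        refine ⟨(V.valuation_le_one_iff _).2 h3, fun h7 => h2 ?_⟩
        rw [← V.valuation_le_one_iff, map_inv₀]
        exact inv_le_one_of_one_le₀ h7
      have h8 : V.valuation (g * b) < 1 := by
        rw [map_mul]
        exact mul_lt_one_of_lt_of_le h6 ((V.valuation_le_one_iff b).2 (hV b hb))
      have h9 : V.valuation (1 : E) < 1 := by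
        have : (1 : E) = g * b - (g * b - 1) := by ring
        rw [this]
        exact lt_of_le_of_lt (V.valuation.map_sub _ _) (max_lt h8 h7)
      rw [map_one] at h9
      exact lt_irrefl _ h9

/-- A valuation subring as a subalgebra. -/
def vsub (V : ValuationSubring E) (hV : ∀ a : k, algebraMap k E a ∈ V) : Subalgebra k E :=
  { V.toSubring with algebraMap_mem' := hV }

theorem mem_vsub {V : ValuationSubring E} {hV : ∀ a : k, algebraMap k E a ∈ V} {x : E} :
    x ∈ vsub V hV ↔ x ∈ V := Iff.rfl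

/-- A valuation subring containing the chart and in which the parameters are nonunits contains
the local ring. -/
theorem le_V {A O : Subalgebra k E} {x : I → E} {u v g : E} (hO : IsPt A O)
    (h : GD A O x u v g) (V : ValuationSubring E) (hV : ∀ f ∈ A, f ∈ V) (hg : g⁻¹ ∈ V)
    (hu : u⁻¹ ∉ V) (hv : v⁻¹ ∉ V) : ∀ f ∈ O, f ∈ V := by
  have hk : ∀ a : k, algebraMap k E a ∈ V := fun a => hV _ (A.algebraMap_mem a)
  have hlt : ∀ y ∈ V, y ≠ 0 → y⁻¹ ∉ V → V.valuation y < 1 := by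
    intro y hy hy0 hyi
    rw [lt_iff_le_not_ge]
    refine ⟨(V.valuation_le_one_iff y).2 hy, fun h7 => hyi ?_⟩
    rw [← V.valuation_le_one_iff, map_inv₀]
    exact inv_le_one_of_one_le₀ h7
  have hNU : ∀ y, NU (vsub V hk) y ↔ V.valuation y < 1 := by
    intro y
    constructor
    · intro h1
      by_cases h0 : y = 0
      · rw [h0, map_zero]; exact zero_lt_one
      · exact hlt y h1.1 h0 (h1.inv_not_mem h0)
    · intro h1
      refine ⟨(V.valuation_le_one_iff y).1 h1.le, ?_⟩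
      intro z hz h2
      have h3 : V.valuation (y * z) < 1 := by
        rw [map_mul]
        exact mul_lt_one_of_lt_of_le h1 ((V.valuation_le_one_iff z).2 hz)
      rw [h2, map_one] at h3
      exact lt_irrefl _ h3
  have hle : adj A g⁻¹ ≤ vsub V hk := adj_le hV hg
  refine (hO.le_of_mx (O' := vsub V hk) hV ?_ ?_).1
  · intro a b ha hb
    rw [hNU] at ha hb ⊢
    exact lt_of_le_of_lt (V.valuation.map_add _ _) (max_lt ha hb)
  · intro a ha hna
    obtain ⟨α, hα, β, hβ, rfl⟩ := h.gen a (le_adj _ _ ha) hna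
    rw [hNU]
    refine lt_of_le_of_lt (V.valuation.map_add _ _) (max_lt ?_ ?_)
    · rw [map_mul, mul_comm]
      exact mul_lt_one_of_lt_of_le (hlt u (hV _ h.uA) h.par.u0 hu)
        ((V.valuation_le_one_iff α).2 (hle hα))
    · rw [map_mul, mul_comm]
      exact mul_lt_one_of_lt_of_le (hlt v (hV _ h.vA) h.par.v0 hv)
        ((V.valuation_le_one_iff β).2 (hle hβ))

end loc

theorem main (hpar : S_par.{u}) : S_iso.{u} := by
  classical
  intro k E _ _ _ _ htr T I _ _ M hSf O hO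
  obtain ⟨t0, hO0⟩ := hO
  have hpt : ∀ t, M.A t ≤ O → IsPt (M.A t) O := fun t ht => M.isPt hO0 ht
  have hGD : ∀ t, ∃ u v g, M.A t ≤ O → GD (M.A t) O (M.x t) u v g := by
    intro t
    by_cases ht : M.A t ≤ O
    · obtain ⟨u, v, g, h⟩ := exists_GD hpar htr (hSf t) (hpt t ht) (M.x t) (M.xA t) (M.x0 t)
      exact ⟨u, v, g, fun _ => h⟩
    · exact ⟨0, 0, 0, fun h => absurd h ht⟩
  choose u v g hG using hGD
  have hG' : ∀ t, ∃ g', M.A t ≤ O → g' ∈ M.A t ∧ g' ≠ 0 ∧ NU O g' ∧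
      ∀ V : ValuationSubring E, (∀ f ∈ M.A t, f ∈ V) → g'⁻¹ ∈ V ∨ (g t)⁻¹ ∈ V := by
    intro t
    by_cases ht : M.A t ≤ O
    · obtain ⟨g', h1⟩ := exists_g' (hpt t ht) (hG t ht)
      exact ⟨g', fun _ => h1⟩
    · exact ⟨0, fun h => absurd h ht⟩
  choose g' hg' using hG'
  let h : T → Option Bool → E := fun t j =>
    if M.A t ≤ O then
      match j with
      | none => g' t
      | some true => if t = t0 then g t else g t * u t
      | some false => if t = t0 then g' t else g t * v t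
    else 1
  have h1 : ∀ t, ¬ M.A t ≤ O → ∀ j, h t j = 1 := fun t ht j => if_neg ht
  have h2 : ∀ t, M.A t ≤ O → h t none = g' t := fun t ht => if_pos ht
  have h3 : h t0 (some true) = g t0 := by
    show (if M.A t0 ≤ O then (if t0 = t0 then g t0 else g t0 * u t0) else 1) = _
    rw [if_pos hO0.le, if_pos rfl]
  have h4 : h t0 (some false) = g' t0 := by
    show (if M.A t0 ≤ O then (if t0 = t0 then g' t0 else g t0 * v t0) else 1) = _
    rw [if_pos hO0.le, if_pos rfl]
  have h5 : ∀ t, M.A t ≤ O → t ≠ t0 → h t (some true) = g t * u t := by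
    intro t ht hne
    show (if M.A t ≤ O then (if t = t0 then g t else g t * u t) else 1) = _
    rw [if_pos ht, if_neg hne]
  have h6 : ∀ t, M.A t ≤ O → t ≠ t0 → h t (some false) = g t * v t := by
    intro t ht hne
    show (if M.A t ≤ O then (if t = t0 then g' t else g t * v t) else 1) = _
    rw [if_pos ht, if_neg hne]
  have hmem : ∀ t b, h t b ∈ M.A t := by
    intro t b
    by_cases ht : M.A t ≤ O
    · by_cases h0 : t = t0
      · subst h0
        rcases b with _ | b | b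
        · rw [h2 t ht]; exact (hg' t ht).1
        · rw [h4]; exact (hg' t ht).1
        · rw [h3]; exact (hG t ht).gA
      · rcases b with _ | b | b
        · rw [h2 t ht]; exact (hg' t ht).1
        · rw [h6 t ht h0]; exact (M.A t).mul_mem (hG t ht).gA (hG t ht).vA
        · rw [h5 t ht h0]; exact (M.A t).mul_mem (hG t ht).gA (hG t ht).uA
    · rw [h1 t ht]; exact (M.A t).one_mem
  have hne : ∀ t b, h t b ≠ 0 := by
    intro t b
    by_cases ht : M.A t ≤ O
    · by_cases h0 : t = t0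
      · subst h0
        rcases b with _ | b | b
        · rw [h2 t ht]; exact (hg' t ht).2.1
        · rw [h4]; exact (hg' t ht).2.1
        · rw [h3]; exact (hG t ht).g0
      · rcases b with _ | b | b
        · rw [h2 t ht]; exact (hg' t ht).2.1
        · rw [h6 t ht h0]; exact mul_ne_zero (hG t ht).g0 (hG t ht).par.v0
        · rw [h5 t ht h0]; exact mul_ne_zero (hG t ht).g0 (hG t ht).par.u0
    · rw [h1 t ht]; exact one_ne_zero
  have hcov : ∀ (V : ValuationSubring E), (∀ a ∈ (⊥ : Subalgebra k E), a ∈ V) →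
      ∃ t b, (∀ f ∈ M.A t, f ∈ V) ∧ (h t b)⁻¹ ∈ V := by
    intro V hV
    obtain ⟨t, ht⟩ := M.cv V hV
    by_cases htO : M.A t ≤ O
    · by_cases h7 : (g' t)⁻¹ ∈ V
      · exact ⟨t, none, ht, by rw [h2 t htO]; exact h7⟩
      have h8 : (g t)⁻¹ ∈ V := ((hg' t htO).2.2.2 V ht).resolve_left h7
      by_cases h0 : t = t0
      · subst h0
        exact ⟨t, some true, ht, by rw [h3]; exact h8⟩
      by_cases hu : (u t)⁻¹ ∈ V
      · exact ⟨t, some true, ht, by rw [h5 t htO h0, mul_inv]; exact V.mul_mem _ _ h8 hu⟩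
      by_cases hv : (v t)⁻¹ ∈ V
      · exact ⟨t, some false, ht, by rw [h6 t htO h0, mul_inv]; exact V.mul_mem _ _ h8 hv⟩
      have h9 := le_V (hpt t htO) (hG t htO) V ht h8 hu hv
      refine ⟨t0, some true, fun f hf => h9 f (hO0.le hf), ?_⟩
      rw [h3]
      exact h9 _ (hG t0 hO0.le).gO
    · refine ⟨t, none, ht, ?_⟩
      have e1 : h t none = 1 := h1 t htO none
      rw [e1, inv_one]
      exact V.one_mem
  obtain ⟨M', hA, hx, -⟩ := exists_refine2 M h hmem hne hcov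
  have hA' : M'.A (t0, some true) = adj (M.A t0) (g t0)⁻¹ := by
    rw [hA]
    show adj (M.A t0) (h t0 (some true))⁻¹ = _
    rw [h3]
  have hx' : ∀ i, M'.x (t0, some true) i = M.x t0 i := fun i => by rw [hx]
  have hGt := hG t0 hO0.le
  refine ⟨T × Option Bool, inferInstance, M', Prod.fst, (t0, some true), u t0, v t0,
    refn_of hmem hne hA hx, ?_, ?_, ?_, ?_, hGt.par, ?_, ?_, ?_⟩
  · rw [hA']
    exact hO0.up (le_adj _ _) (adj_le hO0.le hGt.gO)
  · rintro ⟨t, j⟩ htj
    rw [hA] at htj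
    have ht : M.A t ≤ O := (le_rA M h (t, j)).trans htj
    have hinv : (h t j)⁻¹ ∈ O := htj (inv_mem_rA M h (t, j))
    have hnu : ¬ NU O (h t j) := not_NU_of_inv (hne t j) hinv
    by_cases h0 : t = t0
    · subst h0
      rcases j with _ | j | j
      · rw [h2 t ht] at hnu; exact absurd (hg' t ht).2.2.1 hnu
      · rw [h4] at hnu; exact absurd (hg' t ht).2.2.1 hnu
      · rfl
    · exfalso
      rcases j with _ | j | j
      · rw [h2 t ht] at hnu; exact absurd (hg' t ht).2.2.1 hnu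
      · rw [h6 t ht h0] at hnu
        exact hnu ((hG t ht).par.pv.mul_left (ht (hG t ht).gA))
      · rw [h5 t ht h0] at hnu
        exact hnu ((hG t ht).par.pu.mul_left (ht (hG t ht).gA))
  · rw [hA']; exact le_adj _ _ hGt.uA
  · rw [hA']; exact le_adj _ _ hGt.vA
  · rw [hA']; exact hGt.coord
  · rw [hA']; exact hGt.gen
  · intro i
    rw [hA', hx']
    exact hGt.bd i

end Pool.Agent.W466.RS.Iso
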